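import Pool.Agent.Run7.h113.LE.LawMain

/-!
# The distribution of the boundary values of L-series of elliptic curves on the edge

Let `E` be an elliptic curve over a number field `K` and let `Λ(t)` be the boundary value of `log L(E, s)` at the point
`3/2 + it` of the edge; it exists for almost all real `t`.  We prove that `Λ` has a limit distribution, with exponential
moments, and that it is the distribution of the random Euler product:

for every `d` there is `κ > 0` such that for every continuous `f : ℂ → ℝ` with `|f z| ≤ C exp (κ |z|)` and every `ε > 0` there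
are `H₀` and `Y₀` such that for every number field `K` of degree at most `d`, every elliptic curve `E` over `K`, every
`H ≥ H₀`, every real `T` and every `Y ≥ Y₀` the mean of `f (Λ(t))` over `[T, T + H]` differs by at most `ε` from the
expectation of `f` at the sum of the logarithms of the Euler factors of norm less than `Y`, in which the numbers `p^(-it)`
are replaced by independent random variables, uniformly distributed on the unit circle.  The same is true on the lines
`Re s = 3/2 + σ`, uniformly in `σ ≥ 0`.  In particular the numbers `|L(E, 3/2 + it)|^k` have mean values for all real `k`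
in a neighbourhood of zero that depends only on the degree.

No continuation of `L(E, s)` is known or assumed, and `Λ` may be unbounded.

Proof.  The even moments of the part of `Λ` that belongs to the primes in an interval are estimated over intervals of
length one, uniformly, by means of Chebyshev's bound and Hasse's theorem, with the dependence on the order of the moment
(the moment of order `2k` is at most `C^(2k) (2k)!`).  Hence `f (Λ)` is almost periodic in the mean, with exponential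
moments, and the mean values of the functions of the partial sums are given by the theorem of Kronecker and Weyl.
-/

set_option autoImplicit false

namespace Pool.Agent.Results.MP_0d9be2_nt.DistributionOnTheEdge

open NumberField IsDedekindDomain Filter Topology MeasureTheory
open scoped ENNReal

/-- `W v` is, for every finite place `v`, an integral model of `E` with discriminant minimal at
`v`. -/
def MinimalModels {K : Type} [Field K] [NumberField K] (E : WeierstrassCurve K)
    (W : HeightOneSpectrum (𝓞 K) → WeierstrassCurve (𝓞 K)) : Prop :=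
  ∀ v : HeightOneSpectrum (𝓞 K),
    (∃ C : WeierstrassCurve.VariableChange K, C • (W v).map (algebraMap (𝓞 K) K) = E) ∧
    ∀ W' : WeierstrassCurve (𝓞 K),
      (∃ C : WeierstrassCurve.VariableChange K, C • W'.map (algebraMap (𝓞 K) K) = E) →
      ∀ n : ℕ, (W v).Δ ∈ v.asIdeal ^ n → W'.Δ ∈ v.asIdeal ^ n

/-- The number `a_v`: `Nv` minus the number of affine points of the reduction of `W v`. -/
noncomputable def trace {K : Type} [Field K] [NumberField K]
    (W : HeightOneSpectrum (𝓞 K) → WeierstrassCurve (𝓞 K)) (v : HeightOneSpectrum (𝓞 K)) : ℂ :=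
  (Ideal.absNorm v.asIdeal : ℂ)
    - (Nat.card {xy : (𝓞 K ⧸ v.asIdeal) × (𝓞 K ⧸ v.asIdeal) //
        ((W v).map (Ideal.Quotient.mk v.asIdeal)).toAffine.Equation xy.1 xy.2} : ℂ)

open Classical in
/-- The Euler factor at `v`, `(1 - a_v Nv^{-s} + Nv^{1-2s})⁻¹` if the reduction at `v` is good and
`(1 - a_v Nv^{-s})⁻¹` if it is bad. -/
noncomputable def localFactor {K : Type} [Field K] [NumberField K]
    (W : HeightOneSpectrum (𝓞 K) → WeierstrassCurve (𝓞 K)) (v : HeightOneSpectrum (𝓞 K))
    (s : ℂ) : ℂ :=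
  (1 - trace W v * (Ideal.absNorm v.asIdeal : ℂ) ^ (-s)
    + (if (W v).Δ ∈ v.asIdeal then 0 else (Ideal.absNorm v.asIdeal : ℂ))
        * (Ideal.absNorm v.asIdeal : ℂ) ^ (-2 * s))⁻¹

open Classical in
/-- The Euler factor at `v` at a real point `s`, twisted by the complex number `z`:
`(1 - a_v z Nv^{-s} + z² Nv^{1-2s})⁻¹`, respectively `(1 - a_v z Nv^{-s})⁻¹`. -/
noncomputable def twistedFactor {K : Type} [Field K] [NumberField K]
    (W : HeightOneSpectrum (𝓞 K) → WeierstrassCurve (𝓞 K)) (v : HeightOneSpectrum (𝓞 K))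
    (s : ℝ) (z : ℂ) : ℂ :=
  (1 - trace W v * ((Ideal.absNorm v.asIdeal : ℂ) ^ (-(s : ℂ)) * z)
    + (if (W v).Δ ∈ v.asIdeal then 0 else (Ideal.absNorm v.asIdeal : ℂ))
        * ((Ideal.absNorm v.asIdeal : ℂ) ^ (-2 * (s : ℂ)) * z ^ 2))⁻¹

/-- The `L`-series, as the Euler product over all finite places. -/
noncomputable def LSeries {K : Type} [Field K] [NumberField K]
    (W : HeightOneSpectrum (𝓞 K) → WeierstrassCurve (𝓞 K)) (s : ℂ) : ℂ :=
  ∏' v : HeightOneSpectrum (𝓞 K), localFactor W v s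

/-- The sum of the logarithms of the Euler factors at `s` over the finite places of norm less than `x`. -/
noncomputable def partialLog {K : Type} [Field K] [NumberField K]
    (W : HeightOneSpectrum (𝓞 K) → WeierstrassCurve (𝓞 K)) (s : ℂ) (x : ℕ) : ℂ :=
  ∑ᶠ v ∈ {v : HeightOneSpectrum (𝓞 K) | Ideal.absNorm v.asIdeal < x}, Complex.log (localFactor W v s)

/-- The value of `log L(E, s)` at `s`: the limit of the sums `partialLog W s x` as `x → ∞`. -/
noncomputable def logValue {K : Type} [Field K] [NumberField K]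
    (W : HeightOneSpectrum (𝓞 K) → WeierstrassCurve (𝓞 K)) (s : ℂ) : ℂ :=
  limUnder atTop (partialLog W s)

/-- The point `3/2 + iτ` of the edge of absolute convergence. -/
noncomputable def edgePoint (τ : ℝ) : ℂ := ((3 / 2 : ℝ) : ℂ) + (τ : ℂ) * Complex.I

/-- The angle `|s - s_τ| ≤ C (Re s - 3/2)` at `s_τ = 3/2 + iτ` in the half-plane `Re s > 3/2`. -/
def angle (τ C : ℝ) : Set ℂ :=
  {s : ℂ | (3 / 2 : ℝ) < s.re ∧ ‖s - edgePoint τ‖ ≤ C * (s.re - (3 / 2 : ℝ))}

/-- The uniform probability measure on the unit cube of dimension the number of primes less than `Y`. -/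
noncomputable def cubeMeasure (Y : ℕ) : Measure (Nat.primesBelow Y → ℝ) :=
  Measure.pi fun _ => volume.restrict (Set.Icc (0 : ℝ) 1)

/-- The completely multiplicative function (on the numbers less than `Y`) with the value `exp (2 π i θ_p)` at the prime
`p`. -/
noncomputable def character (Y : ℕ) (θ : Nat.primesBelow Y → ℝ) (n : ℕ) : ℂ :=
  Complex.exp (2 * Real.pi * Complex.I * ∑ p : Nat.primesBelow Y, (n.factorization p : ℂ) * θ p)

/-- The sum of the logarithms of the Euler factors at `s` over the finite places of norm less than `Y`, in which `p^(-it)` is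
replaced by `exp (2 π i θ_p)`. -/
noncomputable def randomLog {K : Type} [Field K] [NumberField K]
    (W : HeightOneSpectrum (𝓞 K) → WeierstrassCurve (𝓞 K)) (s : ℝ) (Y : ℕ) (θ : Nat.primesBelow Y → ℝ) : ℂ :=
  ∑ᶠ v ∈ {v : HeightOneSpectrum (𝓞 K) | Ideal.absNorm v.asIdeal < Y},
    Complex.log (twistedFactor W v s (character Y θ (Ideal.absNorm v.asIdeal)))

/-- Continuous functions that grow at most like `exp (κ |z|)`. -/
def TestFunction (κ : ℝ) (f : ℂ → ℝ) : Prop :=
  Continuous f ∧ ∃ C : ℝ, ∀ z : ℂ, |f z| ≤ C * Real.exp (κ * ‖z‖)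

/-- **The distribution of the boundary values.**  The first part says what the numbers `logValue W s` are; the second part
compares the mean values over long intervals with the random Euler products, uniformly in all curves over all number fields
of bounded degree; the third part gives the limit law of a single curve. -/
theorem result :
    (∀ (K : Type) [Field K] [NumberField K] (E : WeierstrassCurve K) [E.IsElliptic]
      (W : HeightOneSpectrum (𝓞 K) → WeierstrassCurve (𝓞 K)) (_ : MinimalModels E W),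
      (∀ s : ℂ, 3 / 2 < s.re → Tendsto (partialLog W s) atTop (𝓝 (logValue W s)) ∧
        Complex.exp (logValue W s) = LSeries W s) ∧
      ∀ᵐ t : ℝ, Tendsto (partialLog W (edgePoint t)) atTop (𝓝 (logValue W (edgePoint t))) ∧
        ∀ C : ℝ, Tendsto (logValue W) (𝓝[angle t C] (edgePoint t)) (𝓝 (logValue W (edgePoint t)))) ∧
    ∀ d : ℕ, ∃ κ : ℝ, 0 < κ ∧
      (∀ f : ℂ → ℝ, TestFunction κ f → ∀ ε : ℝ, 0 < ε → ∃ (H₀ : ℝ) (Y₀ : ℕ), 0 < H₀ ∧
        ∀ (K : Type) [Field K] [NumberField K], Module.finrank ℚ K ≤ d →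
        ∀ (E : WeierstrassCurve K) [E.IsElliptic]
          (W : HeightOneSpectrum (𝓞 K) → WeierstrassCurve (𝓞 K)) (_ : MinimalModels E W) (σ : ℝ), 0 ≤ σ →
        (∀ a b : ℝ, IntervalIntegrable (fun t : ℝ => f (logValue W (σ + edgePoint t))) volume a b) ∧
        (∀ Y : ℕ, Integrable (fun θ => f (randomLog W (3 / 2 + σ) Y θ)) (cubeMeasure Y)) ∧
        ∀ H : ℝ, H₀ ≤ H → ∀ (T : ℝ) (Y : ℕ), Y₀ ≤ Y →
          |(1 / H) * (∫ t in T..(T + H), f (logValue W (σ + edgePoint t))) -
            ∫ θ, f (randomLog W (3 / 2 + σ) Y θ) ∂(cubeMeasure Y)| ≤ ε) ∧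
      ∀ (K : Type) [Field K] [NumberField K], Module.finrank ℚ K ≤ d →
        ∀ (E : WeierstrassCurve K) [E.IsElliptic]
          (W : HeightOneSpectrum (𝓞 K) → WeierstrassCurve (𝓞 K)) (_ : MinimalModels E W) (σ : ℝ), 0 ≤ σ →
        ∃ ν : Measure ℂ, IsProbabilityMeasure ν ∧ ∀ f : ℂ → ℝ, TestFunction κ f → Integrable f ν ∧
          (∀ ε : ℝ, 0 < ε → ∃ H₀ : ℝ, 0 < H₀ ∧ ∀ H : ℝ, H₀ ≤ H → ∀ T : ℝ,
            |(1 / H) * (∫ t in T..(T + H), f (logValue W (σ + edgePoint t))) - ∫ z, f z ∂ν| ≤ ε) ∧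
          Tendsto (fun Y : ℕ => ∫ θ, f (randomLog W (3 / 2 + σ) Y θ) ∂(cubeMeasure Y)) atTop (𝓝 (∫ z, f z ∂ν)) := by
  have htr : ∀ (K : Type) [Field K] [NumberField K] (W : HeightOneSpectrum (𝓞 K) → WeierstrassCurve (𝓞 K))
      (v : HeightOneSpectrum (𝓞 K)), trace W v = (Pool.Agent.H341R2.EC.trc W v : ℂ) := by
    intro K _ _ W v
    have h1 : (Nat.card {xy : (𝓞 K ⧸ v.asIdeal) × (𝓞 K ⧸ v.asIdeal) //
            ((W v).map (Ideal.Quotient.mk v.asIdeal)).toAffine.Equation xy.1 xy.2}) =
        Pool.Agent.H341R2.EC.aff (Pool.Agent.H341R2.EC.red v (W v)) := by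
      unfold Pool.Agent.H341R2.EC.aff Pool.Agent.H341R2.EC.red
      refine Nat.card_congr (Equiv.subtypeEquivRight fun q => ?_)
      exact WeierstrassCurve.Affine.equation_iff ..
    unfold trace Pool.Agent.H341R2.EC.trc
    rw [h1]
    push_cast
    rfl
  have hlf : ∀ (K : Type) [Field K] [NumberField K] (W : HeightOneSpectrum (𝓞 K) → WeierstrassCurve (𝓞 K))
      (v : HeightOneSpectrum (𝓞 K)) (s : ℂ), localFactor W v s = (Pool.Agent.R433.MD.lf W s v)⁻¹ := by
    intro K _ _ W v s
    have hne : ((Pool.Agent.H921R2.TatePole.nm v : ℕ) : ℂ) ≠ 0 := by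
      exact_mod_cast (Pool.Agent.R433.MD.nm_pos v).ne'
    unfold localFactor Pool.Agent.R433.MD.lf
    rw [htr]
    congr 1
    congr 1
    unfold Pool.Agent.H341R2.EC.dlt
    rw [show (1 - 2 * s : ℂ) = 1 + (-2 * s) by ring, Complex.cpow_add _ _ hne, Complex.cpow_one]
    split_ifs
    · ring
    · rw [one_mul]
      rfl
  have htf : ∀ (K : Type) [Field K] [NumberField K] (W : HeightOneSpectrum (𝓞 K) → WeierstrassCurve (𝓞 K))
      (v : HeightOneSpectrum (𝓞 K)) (σ : ℝ) (z : ℂ),
      twistedFactor W v (3 / 2 + σ) z = (Run7.h113.LE.tf W σ v z)⁻¹ := by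
    intro K _ _ W v σ z
    have hne : ((Pool.Agent.H921R2.TatePole.nm v : ℕ) : ℂ) ≠ 0 := by
      exact_mod_cast (Pool.Agent.R433.MD.nm_pos v).ne'
    have e : (((3 / 2 + σ : ℝ)) : ℂ) = 3 / 2 + (σ : ℂ) := by push_cast; ring
    unfold twistedFactor Run7.h113.LE.tf
    rw [htr, e]
    congr 1
    congr 1
    unfold Pool.Agent.H341R2.EC.dlt
    rw [show (1 - 2 * (3 / 2 + (σ:ℂ)) : ℂ) = 1 + (-2 * (3 / 2 + (σ:ℂ))) by ring, Complex.cpow_add _ _ hne, Complex.cpow_one]
    split_ifs
    · ring
    · rw [one_mul, mul_assoc]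
      rfl
  have hlog : ∀ (K : Type) [Field K] [NumberField K] (W : HeightOneSpectrum (𝓞 K) → WeierstrassCurve (𝓞 K))
      (v : HeightOneSpectrum (𝓞 K)) (u : ℂ), 0 ≤ u.re →
      Complex.log (localFactor W v (3 / 2 + u)) = Pool.Agent.N534.EC.ll W u v := by
    intro K _ _ W v u hu
    rw [hlf]
    unfold Pool.Agent.N534.EC.ll
    rw [Complex.log_inv]
    have h2 := Run7.h113.LE.lf_ball W v u hu
    have h3 := Complex.abs_re_le_norm (Pool.Agent.R433.MD.lf W (3 / 2 + u) v - 1)
    rw [Complex.sub_re, Complex.one_re, abs_le] at h3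
    intro harg
    rw [Complex.arg_eq_pi_iff] at harg
    linarith [h3.1, harg.1]
  have hsum : ∀ (K : Type) [Field K] [NumberField K] (W : HeightOneSpectrum (𝓞 K) → WeierstrassCurve (𝓞 K)) (u : ℂ),
      0 ≤ u.re → ∀ x : ℕ, partialLog W (3 / 2 + u) x = Run7.h113.LE.Sx W x u := by
    intro K _ _ W u hu x
    unfold partialLog Run7.h113.LE.Sx
    have hf : {v : HeightOneSpectrum (𝓞 K) | Ideal.absNorm v.asIdeal < x}.Finite :=
      Pool.Agent.W350.EdgeNF.hfin x
    rw [finsum_mem_eq_finite_toFinset_sum _ hf]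
    exact Finset.sum_congr rfl fun v _ => hlog K W v u hu
  have hedge : ∀ (σ t : ℝ), (σ : ℂ) + edgePoint t = 3 / 2 + ((σ:ℂ) + t * Complex.I) := by
    intro σ t
    unfold edgePoint
    push_cast
    ring
  have hedge0 : ∀ t : ℝ, edgePoint t = 3 / 2 + (((0:ℝ):ℂ) + t * Complex.I) := by
    intro t
    rw [← hedge, Complex.ofReal_zero, zero_add]
  have hRY : ∀ (K : Type) [Field K] [NumberField K] (W : HeightOneSpectrum (𝓞 K) → WeierstrassCurve (𝓞 K)) (σ : ℝ),
      0 ≤ σ → ∀ (Y : ℕ) (θ : Nat.primesBelow Y → ℝ),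
      randomLog W (3 / 2 + σ) Y θ = Run7.h113.LE.RY W σ Y (Run7.h113.LE.pt θ) := by
    intro K _ _ W σ hσ Y θ
    unfold randomLog Run7.h113.LE.RY
    have hf : {v : HeightOneSpectrum (𝓞 K) | Ideal.absNorm v.asIdeal < Y}.Finite :=
      Pool.Agent.W350.EdgeNF.hfin Y
    rw [finsum_mem_eq_finite_toFinset_sum _ hf]
    refine Finset.sum_congr rfl fun v _ => ?_
    have h1 : character Y θ (Ideal.absNorm v.asIdeal) =
        Run7.h113.LE.Xn Y (Pool.Agent.H921R2.TatePole.nm v) (Run7.h113.LE.pt θ) := by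
      rw [Run7.h113.LE.Xn_pt]
      rfl
    rw [h1, htf, Complex.log_inv]
    have h2 := Run7.h113.LE.tf_slit W hσ v (Run7.h113.LE.Xn_norm Y (Pool.Agent.H921R2.TatePole.nm v) (Run7.h113.LE.pt θ))
    exact Complex.slitPlane_arg_ne_pi h2
  -- the limits
  have hlim : ∀ (K : Type) [Field K] [NumberField K] (W : HeightOneSpectrum (𝓞 K) → WeierstrassCurve (𝓞 K)) (u l : ℂ),
      0 ≤ u.re → Tendsto (fun x => Run7.h113.LE.Sx W x u) atTop (𝓝 l) →
        Tendsto (partialLog W (3 / 2 + u)) atTop (𝓝 l) ∧ logValue W (3 / 2 + u) = l := by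
    intro K _ _ W u l hu h
    have h1 : Tendsto (partialLog W (3 / 2 + u)) atTop (𝓝 l) := h.congr fun x => (hsum K W u hu x).symm
    exact ⟨h1, h1.limUnder_eq⟩
  have hLL : ∀ (K : Type) [Field K] [NumberField K] (W : HeightOneSpectrum (𝓞 K) → WeierstrassCurve (𝓞 K)) (u : ℂ),
      0 < u.re → Tendsto (partialLog W (3 / 2 + u)) atTop (𝓝 (Run7.h113.LE.LL W u)) ∧
        logValue W (3 / 2 + u) = Run7.h113.LE.LL W u := by
    intro K _ _ W u hu
    refine hlim K W u _ hu.le ?_
    have h1 := Run7.h113.LE.LL_lim W hu u.im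
    rw [Complex.re_add_im] at h1
    exact h1
  have hisl : ∀ (K : Type) [Field K] [NumberField K] (W : HeightOneSpectrum (𝓞 K) → WeierstrassCurve (𝓞 K)) (σ : ℝ),
      0 ≤ σ → Run7.h113.LE.IsLim W σ (fun t => logValue W (σ + edgePoint t)) := by
    intro K _ _ W σ hσ
    unfold Run7.h113.LE.IsLim
    rcases hσ.eq_or_lt with h | h
    · subst h
      filter_upwards [Run7.h113.LE.Ex_ae W] with t ht
      have h1 := Run7.h113.LE.Lam_tendsto W ht
      rw [hedge, (hlim K W _ _ (by simp) h1).2]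
      exact h1
    · refine Eventually.of_forall fun t => ?_
      have h1 := Run7.h113.LE.LL_lim W h t
      beta_reduce
      rw [hedge, (hlim K W _ _ (by simp [h.le]) h1).2]
      exact h1
  refine ⟨?_, fun d => ⟨Run7.h113.LE.kap d / 2, half_pos (Run7.h113.LE.kap_pos d), ?_, ?_⟩⟩
  · intro K _ _ E _ W hW
    refine ⟨fun s hs => ?_, ?_⟩
    · obtain ⟨u, rfl⟩ : ∃ u : ℂ, s = 3 / 2 + u := ⟨s - 3 / 2, by ring⟩
      have hu : 0 < u.re := by
        have e : ((3:ℂ) / 2 + u).re = 3 / 2 + u.re := by simp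
        rw [e] at hs
        linarith
      obtain ⟨h1, h2⟩ := hLL K W u hu
      rw [h2]
      refine ⟨h1, ?_⟩
      unfold Run7.h113.LE.LL LSeries
      have h3 : ∀ v, Pool.Agent.N534.EC.ll W u v = Complex.log (localFactor W v (3 / 2 + u)) := fun v =>
        (hlog K W v u hu.le).symm
      simp_rw [h3]
      refine Complex.cexp_tsum_eq_tprod (fun v => ?_) ?_
      · rw [hlf]
        exact inv_ne_zero (Pool.Agent.R433.MD.lf_ne_zero W hs v)
      · exact (Run7.h113.LE.ll_summable W hu).congr h3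
    · filter_upwards [Run7.h113.LE.Ex_ae W] with t ht
      obtain ⟨h1, h2⟩ := hlim K W _ _ (by simp) (Run7.h113.LE.Lam_tendsto W ht)
      rw [← hedge0] at h1 h2
      rw [h2]
      refine ⟨h1, fun C => ?_⟩
      have h1 := Run7.h113.LE.LL_angle W ht C
      have hmap : Tendsto (fun s : ℂ => s - 3 / 2) (𝓝[angle t C] (edgePoint t))
          (𝓝[{u : ℂ | 0 < u.re ∧ ‖u - t * Complex.I‖ ≤ C * u.re}] (t * Complex.I)) := by
        apply tendsto_nhdsWithin_of_tendsto_nhds_of_eventually_within
        · have h2 : Tendsto (fun s : ℂ => s - 3 / 2) (𝓝 (edgePoint t)) (𝓝 (edgePoint t - 3 / 2)) :=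
            (continuous_id.sub continuous_const).tendsto _
          have e : edgePoint t - 3 / 2 = t * Complex.I := by
            rw [hedge0]
            push_cast
            ring
          rw [e] at h2
          exact h2.mono_left nhdsWithin_le_nhds
        · filter_upwards [self_mem_nhdsWithin] with s hs
          obtain ⟨h2, h3⟩ := hs
          have e1 : (s - 3 / 2).re = s.re - 3 / 2 := by simp
          have e2 : s - 3 / 2 - t * Complex.I = s - edgePoint t := by
            rw [hedge0]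
            push_cast
            ring
          refine ⟨by rw [e1]; linarith, ?_⟩
          rw [e1, e2]
          exact h3
      refine (h1.comp hmap).congr' ?_
      filter_upwards [self_mem_nhdsWithin] with s hs
      have e1 : (s - 3 / 2).re = s.re - 3 / 2 := by simp
      have h2 := (hLL K W (s - 3 / 2) (by rw [e1]; linarith [hs.1])).2
      rw [add_sub_cancel] at h2
      exact h2.symm
  · intro f hf ε hε
    have hf' : Run7.h113.LE.Cls (Run7.h113.LE.kap d) f := hf
    obtain ⟨H₀, Y₀, hH₀, hmain⟩ := Run7.h113.LE.main_law d hf' hε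
    refine ⟨H₀, Y₀, hH₀, ?_⟩
    intro K _ _ hd E _ W hW σ hσ
    have hi := hisl K W σ hσ
    have hgood : Run7.h113.LE.Good (Run7.h113.LE.kap d) (Run7.h113.LE.Bd d)
        (fun t => logValue W (σ + edgePoint t)) := ⟨hi.aesm hσ, fun T => Run7.h113.LE.exp_lim hd hσ hi T⟩
    refine ⟨fun a b => hf'.ii (Run7.h113.LE.kap_pos d) hgood a b, fun Y => ?_, fun H hH T Y hY => ?_⟩
    · have h1 := Run7.h113.LE.cube_int (ι := Nat.primesBelow Y)
        ⟨fun x => ((f (Run7.h113.LE.RY W σ Y x) : ℝ) : ℂ),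
          Complex.continuous_ofReal.comp (hf.1.comp (Run7.h113.LE.RY_cont W hσ Y))⟩
      have h2 := h1.re
      refine h2.congr (Eventually.of_forall fun θ => ?_)
      simp only [hRY K W σ hσ Y θ]
      rfl
    · have h1 := hmain K hd W σ hσ _ hi H hH T Y hY
      simp only [hRY K W σ hσ Y]
      exact h1
  · intro K _ _ hd E _ W hW σ hσ
    have hi := hisl K W σ hσ
    obtain ⟨ν, hν, hlaw⟩ := Run7.h113.LE.law_exists hd W hσ hi
    refine ⟨ν, hν, fun f hf => ?_⟩
    have hf' : Run7.h113.LE.Cls (Run7.h113.LE.kap d) f := hf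
    obtain ⟨h1, h2⟩ := hlaw f hf'
    -- the random Euler products
    have h3 : ∀ ε : ℝ, 0 < ε → ∃ (H₀ : ℝ) (Y₀ : ℕ), 0 < H₀ ∧
        (∀ Y : ℕ, Y₀ ≤ Y → |(∫ z, f z ∂ν) - ∫ θ, f (randomLog W (3 / 2 + σ) Y θ) ∂(cubeMeasure Y)| ≤ ε) ∧
        ∀ H : ℝ, H₀ ≤ H → ∀ (T : ℝ) (Y : ℕ), Y₀ ≤ Y →
          |(1 / H) * (∫ t in T..(T + H), f (logValue W (σ + edgePoint t))) -
            ∫ θ, f (randomLog W (3 / 2 + σ) Y θ) ∂(cubeMeasure Y)| ≤ ε := by
      intro ε hε
      obtain ⟨H₀, Y₀, hH₀, hmain⟩ := Run7.h113.LE.main_law d hf' hε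
      have h4 : ∀ H : ℝ, H₀ ≤ H → ∀ (T : ℝ) (Y : ℕ), Y₀ ≤ Y →
          |(1 / H) * (∫ t in T..(T + H), f (logValue W (σ + edgePoint t))) -
            ∫ θ, f (randomLog W (3 / 2 + σ) Y θ) ∂(cubeMeasure Y)| ≤ ε := by
        intro H hH T Y hY
        have h5 := hmain K hd W σ hσ _ hi H hH T Y hY
        simp only [hRY K W σ hσ Y]
        exact h5
      refine ⟨H₀, Y₀, hH₀, fun Y hY => ?_, h4⟩
      have h5 := (h2.sub_const (∫ θ, f (randomLog W (3 / 2 + σ) Y θ) ∂(cubeMeasure Y))).abs
      refine le_of_tendsto h5 ?_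
      obtain ⟨N, hN⟩ := exists_nat_ge H₀
      filter_upwards [eventually_ge_atTop N] with n hn
      have h6 := h4 n (hN.trans (by exact_mod_cast hn)) 0 Y hY
      rw [zero_add] at h6
      exact h6
    refine ⟨h1, fun ε hε => ?_, ?_⟩
    · obtain ⟨H₀, Y₀, hH₀, h4, h5⟩ := h3 (ε / 2) (by positivity)
      refine ⟨H₀, hH₀, fun H hH T => ?_⟩
      have h6 := h4 Y₀ le_rfl
      have h7 := h5 H hH T Y₀ le_rfl
      rw [abs_le] at h6 h7 ⊢
      constructor <;> linarith [h6.1, h6.2, h7.1, h7.2]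
    · rw [Metric.tendsto_atTop]
      intro ε hε
      obtain ⟨H₀, Y₀, hH₀, h4, h5⟩ := h3 (ε / 2) (by positivity)
      refine ⟨Y₀, fun Y hY => ?_⟩
      rw [Real.dist_eq, abs_sub_comm]
      have := h4 Y hY
      linarith

end Pool.Agent.Results.MP_0d9be2_nt.DistributionOnTheEdge
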