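import Pool.Agent.Run7.h113.GE.Tail
import Pool.Agent.Run7.h113.GE.EC

/-!
# Large deviations of L-series of elliptic curves on the edge

Let `E` be an elliptic curve over a number field `K` and let `Λ(t)` be the boundary value of `log L(E, s)` at the point
`3/2 + it` of the edge; it exists for almost all real `t`.  No continuation of `L(E, s)` is known or assumed, and `Λ` may be
unbounded.  We prove a triple exponential bound for the frequency of its large values, uniformly in all curves over all
number fields of bounded degree: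

for every `d` there is `C` such that for every `V ≥ C` there is `H₀` such that for every number field `K` of degree at most
`d`, every elliptic curve `E` over `K`, every `σ ≥ 0`, every `H ≥ H₀` and every real `T`, the set of the `t` in
`[T, T + H]` with `|log L(E, 3/2 + σ + it)| ≥ V` has measure at most `H exp (- exp (exp ((V - C) / (2 d))))`.

The length `H₀` depends on `d` and `V` only; it does not depend on the conductor of the curve, on the field or on `T`.

Proof.  By the uniform distribution of the boundary values in long intervals (which is uniform in the curves) the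
frequency is bounded by the probability of the corresponding event for the random Euler product.  By Hasse's theorem the
part of its logarithm that belongs to a prime `p` is at most `2 d / p + O(1/p²)`, it has mean zero by the mean value theorem
for analytic functions, and these parts are independent.  The sum over `p ≤ s` is at most `2 d log log s + O(1)` by Mertens'
theorem, and the sum over `p > s` exceeds a constant with probability at most `exp (- s)` by Hoeffding's inequality.
-/

set_option autoImplicit false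

namespace Pool.Agent.Results.MP_0d9be2_nt.LargeDeviationsOnTheEdge

open NumberField IsDedekindDomain Filter Topology MeasureTheory
open scoped ENNReal

/-- `W v` is, for every finite place `v`, an integral model of `E` with discriminant minimal at
`v`. -/
def MinimalModels {K : Type} [Field K] [NumberField K] (E : WeierstrassCurve K)
    (W : HeightOneSpectrum (𝓞 K) → WeierstrassCurve (𝓞 K)) : Prop :=
  ∀ v : HeightOneSpectrum (𝓞 K),
    (∃ C : WeierstrassCurve.VariableChange K, C • (W v).map (algebraMap (𝓞 K) K) = E) ∧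
    ∀ W' : WeierstrassCurve (𝓞 K),
      (∃ C : WeierstrassCurve.VariableChange K, C • W'.map (algebraMap (𝓞 K) K) = E) →
      ∀ n : ℕ, (W v).Δ ∈ v.asIdeal ^ n → W'.Δ ∈ v.asIdeal ^ n

/-- The number `a_v`: `Nv` minus the number of affine points of the reduction of `W v`. -/
noncomputable def trace {K : Type} [Field K] [NumberField K]
    (W : HeightOneSpectrum (𝓞 K) → WeierstrassCurve (𝓞 K)) (v : HeightOneSpectrum (𝓞 K)) : ℂ :=
  (Ideal.absNorm v.asIdeal : ℂ)
    - (Nat.card {xy : (𝓞 K ⧸ v.asIdeal) × (𝓞 K ⧸ v.asIdeal) //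
        ((W v).map (Ideal.Quotient.mk v.asIdeal)).toAffine.Equation xy.1 xy.2} : ℂ)

open Classical in
/-- The Euler factor at `v`, `(1 - a_v Nv^{-s} + Nv^{1-2s})⁻¹` if the reduction at `v` is good and
`(1 - a_v Nv^{-s})⁻¹` if it is bad. -/
noncomputable def localFactor {K : Type} [Field K] [NumberField K]
    (W : HeightOneSpectrum (𝓞 K) → WeierstrassCurve (𝓞 K)) (v : HeightOneSpectrum (𝓞 K))
    (s : ℂ) : ℂ :=
  (1 - trace W v * (Ideal.absNorm v.asIdeal : ℂ) ^ (-s)
    + (if (W v).Δ ∈ v.asIdeal then 0 else (Ideal.absNorm v.asIdeal : ℂ))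
        * (Ideal.absNorm v.asIdeal : ℂ) ^ (-2 * s))⁻¹

/-- The `L`-series, as the Euler product over all finite places. -/
noncomputable def LSeries {K : Type} [Field K] [NumberField K]
    (W : HeightOneSpectrum (𝓞 K) → WeierstrassCurve (𝓞 K)) (s : ℂ) : ℂ :=
  ∏' v : HeightOneSpectrum (𝓞 K), localFactor W v s

/-- The sum of the logarithms of the Euler factors at `s` over the finite places of norm less than `x`. -/
noncomputable def partialLog {K : Type} [Field K] [NumberField K]
    (W : HeightOneSpectrum (𝓞 K) → WeierstrassCurve (𝓞 K)) (s : ℂ) (x : ℕ) : ℂ :=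
  ∑ᶠ v ∈ {v : HeightOneSpectrum (𝓞 K) | Ideal.absNorm v.asIdeal < x}, Complex.log (localFactor W v s)

/-- The value of `log L(E, s)` at `s`: the limit of the sums `partialLog W s x` as `x → ∞`. -/
noncomputable def logValue {K : Type} [Field K] [NumberField K]
    (W : HeightOneSpectrum (𝓞 K) → WeierstrassCurve (𝓞 K)) (s : ℂ) : ℂ :=
  limUnder atTop (partialLog W s)

/-- The point `3/2 + iτ` of the edge of absolute convergence. -/
noncomputable def edgePoint (τ : ℝ) : ℂ := ((3 / 2 : ℝ) : ℂ) + (τ : ℂ) * Complex.I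

/-- The angle `|s - s_τ| ≤ C (Re s - 3/2)` at `s_τ = 3/2 + iτ` in the half-plane `Re s > 3/2`. -/
def angle (τ C : ℝ) : Set ℂ :=
  {s : ℂ | (3 / 2 : ℝ) < s.re ∧ ‖s - edgePoint τ‖ ≤ C * (s.re - (3 / 2 : ℝ))}

/-- **Large deviations on the edge.**  The first part says what the numbers `logValue W s` are; the second part bounds the
frequency of their large values, uniformly in all curves over all number fields of bounded degree. -/
theorem result :
    (∀ (K : Type) [Field K] [NumberField K] (E : WeierstrassCurve K) [E.IsElliptic]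
      (W : HeightOneSpectrum (𝓞 K) → WeierstrassCurve (𝓞 K)) (_ : MinimalModels E W),
      (∀ s : ℂ, 3 / 2 < s.re → Tendsto (partialLog W s) atTop (𝓝 (logValue W s)) ∧
        Complex.exp (logValue W s) = LSeries W s) ∧
      ∀ᵐ t : ℝ, Tendsto (partialLog W (edgePoint t)) atTop (𝓝 (logValue W (edgePoint t))) ∧
        ∀ C : ℝ, Tendsto (logValue W) (𝓝[angle t C] (edgePoint t)) (𝓝 (logValue W (edgePoint t)))) ∧
    ∀ d : ℕ, 0 < d → ∃ C : ℝ, 0 ≤ C ∧ ∀ V : ℝ, C ≤ V → ∃ H₀ : ℝ, 0 < H₀ ∧
      ∀ (K : Type) [Field K] [NumberField K], Module.finrank ℚ K ≤ d →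
      ∀ (E : WeierstrassCurve K) [E.IsElliptic]
        (W : HeightOneSpectrum (𝓞 K) → WeierstrassCurve (𝓞 K)) (_ : MinimalModels E W) (σ : ℝ), 0 ≤ σ →
      ∀ H : ℝ, H₀ ≤ H → ∀ T : ℝ,
        volume {t : ℝ | t ∈ Set.Icc T (T + H) ∧ V ≤ ‖logValue W (σ + edgePoint t)‖} ≤
          ENNReal.ofReal (H * Real.exp (-Real.exp (Real.exp ((V - C) / (2 * d))))) := by
  have htr : ∀ (K : Type) [Field K] [NumberField K] (W : HeightOneSpectrum (𝓞 K) → WeierstrassCurve (𝓞 K))
      (v : HeightOneSpectrum (𝓞 K)), trace W v = (Pool.Agent.H341R2.EC.trc W v : ℂ) := by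
    intro K _ _ W v
    have h1 : (Nat.card {xy : (𝓞 K ⧸ v.asIdeal) × (𝓞 K ⧸ v.asIdeal) //
            ((W v).map (Ideal.Quotient.mk v.asIdeal)).toAffine.Equation xy.1 xy.2}) =
        Pool.Agent.H341R2.EC.aff (Pool.Agent.H341R2.EC.red v (W v)) := by
      unfold Pool.Agent.H341R2.EC.aff Pool.Agent.H341R2.EC.red
      refine Nat.card_congr (Equiv.subtypeEquivRight fun q => ?_)
      exact WeierstrassCurve.Affine.equation_iff ..
    unfold trace Pool.Agent.H341R2.EC.trc
    rw [h1]
    push_cast
    rfl
  have hlf : ∀ (K : Type) [Field K] [NumberField K] (W : HeightOneSpectrum (𝓞 K) → WeierstrassCurve (𝓞 K))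
      (v : HeightOneSpectrum (𝓞 K)) (s : ℂ), localFactor W v s = (Pool.Agent.R433.MD.lf W s v)⁻¹ := by
    intro K _ _ W v s
    have hne : ((Pool.Agent.H921R2.TatePole.nm v : ℕ) : ℂ) ≠ 0 := by
      exact_mod_cast (Pool.Agent.R433.MD.nm_pos v).ne'
    unfold localFactor Pool.Agent.R433.MD.lf
    rw [htr]
    congr 1
    congr 1
    unfold Pool.Agent.H341R2.EC.dlt
    rw [show (1 - 2 * s : ℂ) = 1 + (-2 * s) by ring, Complex.cpow_add _ _ hne, Complex.cpow_one]
    split_ifs
    · ring
    · rw [one_mul]
      rfl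
  have hlog : ∀ (K : Type) [Field K] [NumberField K] (W : HeightOneSpectrum (𝓞 K) → WeierstrassCurve (𝓞 K))
      (v : HeightOneSpectrum (𝓞 K)) (u : ℂ), 0 ≤ u.re →
      Complex.log (localFactor W v (3 / 2 + u)) = Pool.Agent.N534.EC.ll W u v := by
    intro K _ _ W v u hu
    rw [hlf]
    unfold Pool.Agent.N534.EC.ll
    rw [Complex.log_inv]
    have h2 := Run7.h113.LE.lf_ball W v u hu
    have h3 := Complex.abs_re_le_norm (Pool.Agent.R433.MD.lf W (3 / 2 + u) v - 1)
    rw [Complex.sub_re, Complex.one_re, abs_le] at h3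
    intro harg
    rw [Complex.arg_eq_pi_iff] at harg
    linarith [h3.1, harg.1]
  have hsum : ∀ (K : Type) [Field K] [NumberField K] (W : HeightOneSpectrum (𝓞 K) → WeierstrassCurve (𝓞 K)) (u : ℂ),
      0 ≤ u.re → ∀ x : ℕ, partialLog W (3 / 2 + u) x = Run7.h113.LE.Sx W x u := by
    intro K _ _ W u hu x
    unfold partialLog Run7.h113.LE.Sx
    have hf : {v : HeightOneSpectrum (𝓞 K) | Ideal.absNorm v.asIdeal < x}.Finite :=
      Pool.Agent.W350.EdgeNF.hfin x
    rw [finsum_mem_eq_finite_toFinset_sum _ hf]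
    exact Finset.sum_congr rfl fun v _ => hlog K W v u hu
  have hedge : ∀ (σ t : ℝ), (σ : ℂ) + edgePoint t = 3 / 2 + ((σ:ℂ) + t * Complex.I) := by
    intro σ t
    unfold edgePoint
    push_cast
    ring
  have hedge0 : ∀ t : ℝ, edgePoint t = 3 / 2 + (((0:ℝ):ℂ) + t * Complex.I) := by
    intro t
    rw [← hedge, Complex.ofReal_zero, zero_add]
  -- the limits
  have hlim : ∀ (K : Type) [Field K] [NumberField K] (W : HeightOneSpectrum (𝓞 K) → WeierstrassCurve (𝓞 K)) (u l : ℂ),
      0 ≤ u.re → Tendsto (fun x => Run7.h113.LE.Sx W x u) atTop (𝓝 l) →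
        Tendsto (partialLog W (3 / 2 + u)) atTop (𝓝 l) ∧ logValue W (3 / 2 + u) = l := by
    intro K _ _ W u l hu h
    have h1 : Tendsto (partialLog W (3 / 2 + u)) atTop (𝓝 l) := h.congr fun x => (hsum K W u hu x).symm
    exact ⟨h1, h1.limUnder_eq⟩
  have hLL : ∀ (K : Type) [Field K] [NumberField K] (W : HeightOneSpectrum (𝓞 K) → WeierstrassCurve (𝓞 K)) (u : ℂ),
      0 < u.re → Tendsto (partialLog W (3 / 2 + u)) atTop (𝓝 (Run7.h113.LE.LL W u)) ∧
        logValue W (3 / 2 + u) = Run7.h113.LE.LL W u := by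
    intro K _ _ W u hu
    refine hlim K W u _ hu.le ?_
    have h1 := Run7.h113.LE.LL_lim W hu u.im
    rw [Complex.re_add_im] at h1
    exact h1
  have hisl : ∀ (K : Type) [Field K] [NumberField K] (W : HeightOneSpectrum (𝓞 K) → WeierstrassCurve (𝓞 K)) (σ : ℝ),
      0 ≤ σ → Run7.h113.LE.IsLim W σ (fun t => logValue W (σ + edgePoint t)) := by
    intro K _ _ W σ hσ
    unfold Run7.h113.LE.IsLim
    rcases hσ.eq_or_lt with h | h
    · subst h
      filter_upwards [Run7.h113.LE.Ex_ae W] with t ht
      have h1 := Run7.h113.LE.Lam_tendsto W ht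
      rw [hedge, (hlim K W _ _ (by simp) h1).2]
      exact h1
    · refine Eventually.of_forall fun t => ?_
      have h1 := Run7.h113.LE.LL_lim W h t
      beta_reduce
      rw [hedge, (hlim K W _ _ (by simp [h.le]) h1).2]
      exact h1
  refine ⟨?_, ?_⟩
  · intro K _ _ E _ W hW
    refine ⟨fun s hs => ?_, ?_⟩
    · obtain ⟨u, rfl⟩ : ∃ u : ℂ, s = 3 / 2 + u := ⟨s - 3 / 2, by ring⟩
      have hu : 0 < u.re := by
        have e : ((3:ℂ) / 2 + u).re = 3 / 2 + u.re := by simp
        rw [e] at hs
        linarith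
      obtain ⟨h1, h2⟩ := hLL K W u hu
      rw [h2]
      refine ⟨h1, ?_⟩
      unfold Run7.h113.LE.LL LSeries
      have h3 : ∀ v, Pool.Agent.N534.EC.ll W u v = Complex.log (localFactor W v (3 / 2 + u)) := fun v =>
        (hlog K W v u hu.le).symm
      simp_rw [h3]
      refine Complex.cexp_tsum_eq_tprod (fun v => ?_) ?_
      · rw [hlf]
        exact inv_ne_zero (Pool.Agent.R433.MD.lf_ne_zero W hs v)
      · exact (Run7.h113.LE.ll_summable W hu).congr h3
    · filter_upwards [Run7.h113.LE.Ex_ae W] with t ht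
      obtain ⟨h1, h2⟩ := hlim K W _ _ (by simp) (Run7.h113.LE.Lam_tendsto W ht)
      rw [← hedge0] at h1 h2
      rw [h2]
      refine ⟨h1, fun C => ?_⟩
      have h1 := Run7.h113.LE.LL_angle W ht C
      have hmap : Tendsto (fun s : ℂ => s - 3 / 2) (𝓝[angle t C] (edgePoint t))
          (𝓝[{u : ℂ | 0 < u.re ∧ ‖u - t * Complex.I‖ ≤ C * u.re}] (t * Complex.I)) := by
        apply tendsto_nhdsWithin_of_tendsto_nhds_of_eventually_within
        · have h2 : Tendsto (fun s : ℂ => s - 3 / 2) (𝓝 (edgePoint t)) (𝓝 (edgePoint t - 3 / 2)) :=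
            (continuous_id.sub continuous_const).tendsto _
          have e : edgePoint t - 3 / 2 = t * Complex.I := by
            rw [hedge0]
            push_cast
            ring
          rw [e] at h2
          exact h2.mono_left nhdsWithin_le_nhds
        · filter_upwards [self_mem_nhdsWithin] with s hs
          obtain ⟨h2, h3⟩ := hs
          have e1 : (s - 3 / 2).re = s.re - 3 / 2 := by simp
          have e2 : s - 3 / 2 - t * Complex.I = s - edgePoint t := by
            rw [hedge0]
            push_cast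
            ring
          refine ⟨by rw [e1]; linarith, ?_⟩
          rw [e1, e2]
          exact h3
      refine (h1.comp hmap).congr' ?_
      filter_upwards [self_mem_nhdsWithin] with s hs
      have e1 : (s - 3 / 2).re = s.re - 3 / 2 := by simp
      have h2 := (hLL K W (s - 3 / 2) (by rw [e1]; linarith [hs.1])).2
      rw [add_sub_cancel] at h2
      exact h2.symm
  · intro d hd0
    have hd0' : (0:ℝ) < d := by exact_mod_cast hd0
    obtain ⟨C, hC0, hC⟩ := Run7.h113.GE.tail_main d (A := 1000) (M := 2 * d) (by norm_num) (by positivity)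
    refine ⟨C, hC0, fun V hV => ?_⟩
    obtain ⟨H₀, hH₀, hmain⟩ := hC V hV
    refine ⟨H₀, hH₀, ?_⟩
    intro K _ _ hd E _ W hW σ hσ H hH T
    have hi := hisl K W σ hσ
    have hi' : (Run7.h113.GE.ecSys W).IsLim σ (fun t => logValue W (σ + edgePoint t)) := by
      unfold Run7.h113.GE.Sys.IsLim
      filter_upwards [hi] with t ht
      simp only [Run7.h113.GE.ec_Sx]
      exact ht
    have hdr : (Module.finrank ℚ K : ℝ) ≤ d := by exact_mod_cast hd
    exact hmain K 2 (Run7.h113.GE.ecSys W) hd (by linarith) σ hσ _ hi' H hH T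

end Pool.Agent.Results.MP_0d9be2_nt.LargeDeviationsOnTheEdge
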