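import Pool.Agent.Run7.h401.RT.Rect

/-!
# The rate of convergence to the limit law on the edge of absolute convergence

Let `E` be an elliptic curve over a number field `K` of degree at most `d`, and let `Λ(t)` be the boundary value of
`log L(E, s)` at the point `3/2 + it` of the edge of absolute convergence; it exists for almost all real `t`.  As `H → ∞` the
distribution of `Λ(t)`, `t ∈ [T, T + H]`, tends to a law with a smooth density `f` (`DistributionOnTheEdge`,
`SmoothDensityOnTheEdge`).  We prove a rate of convergence: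

for every `δ > 0` and `A`, with `r = (log H) ^ (-1 + δ)`, the proportion of the `t` in `[T, T + H]` with `Λ(t) ∈ B` is at most
the integral of `f` over the `r`-neighbourhood of `B` plus `(log H) ^ (-A)`, and at least the integral of `f` over the set of
the points of `B` with distance at least `r` to the complement of `B` minus `(log H) ^ (-A)`, for all Borel sets `B`, all real
`T` and all `H ≥ H₀`.  Here `H₀` depends only on `d`, `δ` and `A`: not on the curve, the field, the set, or `T`.  The same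
holds on the lines `Re s = 3/2 + σ`, uniformly in `σ ≥ 0`.  In particular the discrepancy for rectangles is
`O((log H) ^ (-1 + δ))`.

No continuation of `L(E, s)` is known or assumed, and nothing is assumed about the numbers `a_v`.

Proof.  The characteristic function of the values in the window is compared with the one of the limit law for
`|ξ| ≤ (log H) ^ (1 - δ)`.  The places of norm more than a power of `log H` are removed by a mean value theorem on the edge: the
primes up to `exp (√H)` by a large sieve, the larger ones by Chebyshev's bound in intervals of length one on the logarithmic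
scale.  For the remaining places `exp (i Re (ξ̄ log L))` is replaced by a Dirichlet polynomial of length at most `√H`, whose mean
over `[T, T + H]` is its constant term up to a power of `H`.  A smoothing inequality with a kernel whose Fourier transform has
compact support gives the result for sets.
-/

set_option autoImplicit false

namespace Pool.Agent.Results.MP_0d9be2_nt.RateOfConvergence

open NumberField IsDedekindDomain Filter Topology MeasureTheory
open scoped ENNReal ContDiff

/-- `W v` is, for every finite place `v`, an integral model of `E` with discriminant minimal at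
`v`. -/
def MinimalModels {K : Type} [Field K] [NumberField K] (E : WeierstrassCurve K)
    (W : HeightOneSpectrum (𝓞 K) → WeierstrassCurve (𝓞 K)) : Prop :=
  ∀ v : HeightOneSpectrum (𝓞 K),
    (∃ C : WeierstrassCurve.VariableChange K, C • (W v).map (algebraMap (𝓞 K) K) = E) ∧
    ∀ W' : WeierstrassCurve (𝓞 K),
      (∃ C : WeierstrassCurve.VariableChange K, C • W'.map (algebraMap (𝓞 K) K) = E) →
      ∀ n : ℕ, (W v).Δ ∈ v.asIdeal ^ n → W'.Δ ∈ v.asIdeal ^ n

/-- The number `a_v`: `Nv` minus the number of affine points of the reduction of `W v`. -/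
noncomputable def trace {K : Type} [Field K] [NumberField K]
    (W : HeightOneSpectrum (𝓞 K) → WeierstrassCurve (𝓞 K)) (v : HeightOneSpectrum (𝓞 K)) : ℂ :=
  (Ideal.absNorm v.asIdeal : ℂ)
    - (Nat.card {xy : (𝓞 K ⧸ v.asIdeal) × (𝓞 K ⧸ v.asIdeal) //
        ((W v).map (Ideal.Quotient.mk v.asIdeal)).toAffine.Equation xy.1 xy.2} : ℂ)

open Classical in
/-- The Euler factor at `v`, `(1 - a_v Nv^{-s} + Nv^{1-2s})⁻¹` if the reduction at `v` is good and
`(1 - a_v Nv^{-s})⁻¹` if it is bad. -/
noncomputable def localFactor {K : Type} [Field K] [NumberField K]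
    (W : HeightOneSpectrum (𝓞 K) → WeierstrassCurve (𝓞 K)) (v : HeightOneSpectrum (𝓞 K))
    (s : ℂ) : ℂ :=
  (1 - trace W v * (Ideal.absNorm v.asIdeal : ℂ) ^ (-s)
    + (if (W v).Δ ∈ v.asIdeal then 0 else (Ideal.absNorm v.asIdeal : ℂ))
        * (Ideal.absNorm v.asIdeal : ℂ) ^ (-2 * s))⁻¹

/-- The `L`-series, as the Euler product over all finite places. -/
noncomputable def LSeries {K : Type} [Field K] [NumberField K]
    (W : HeightOneSpectrum (𝓞 K) → WeierstrassCurve (𝓞 K)) (s : ℂ) : ℂ :=
  ∏' v : HeightOneSpectrum (𝓞 K), localFactor W v s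

/-- The sum of the logarithms of the Euler factors at `s` over the finite places of norm less than `x`. -/
noncomputable def partialLog {K : Type} [Field K] [NumberField K]
    (W : HeightOneSpectrum (𝓞 K) → WeierstrassCurve (𝓞 K)) (s : ℂ) (x : ℕ) : ℂ :=
  ∑ᶠ v ∈ {v : HeightOneSpectrum (𝓞 K) | Ideal.absNorm v.asIdeal < x}, Complex.log (localFactor W v s)

/-- The value of `log L(E, s)` at `s`: the limit of the sums `partialLog W s x` as `x → ∞`. -/
noncomputable def logValue {K : Type} [Field K] [NumberField K]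
    (W : HeightOneSpectrum (𝓞 K) → WeierstrassCurve (𝓞 K)) (s : ℂ) : ℂ :=
  limUnder atTop (partialLog W s)

/-- The point `3/2 + iτ` of the edge of absolute convergence. -/
noncomputable def edgePoint (τ : ℝ) : ℂ := ((3 / 2 : ℝ) : ℂ) + (τ : ℂ) * Complex.I

/-- infinitely many primes lie below places of good reduction -/
theorem good_inf {K : Type} [Field K] [NumberField K] (E : WeierstrassCurve K) [E.IsElliptic]
    (W : HeightOneSpectrum (𝓞 K) → WeierstrassCurve (𝓞 K)) (hW : MinimalModels E W) :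
    (Run7.h401.SD.Good1 W).Infinite := by
  classical
  obtain ⟨v₀, -⟩ := Run7.h401.SD.exists_above (K := K) Nat.prime_two
  -- the discriminant of one model
  have hΔ : (W v₀).Δ ≠ 0 := by
    intro h0
    obtain ⟨C, hC⟩ := (hW v₀).1
    have h1 : E.Δ = 0 := by
      rw [← hC, WeierstrassCurve.variableChange_Δ, WeierstrassCurve.map_Δ, h0, map_zero, mul_zero]
    have h2 : IsUnit E.Δ := WeierstrassCurve.IsElliptic.isUnit
    rw [h1] at h2
    exact not_isUnit_zero h2
  have hspan : Ideal.span {(W v₀).Δ} ≠ 0 := by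
    rw [Ne, Ideal.zero_eq_bot, Ideal.span_singleton_eq_bot]
    exact hΔ
  have hfin : {v : HeightOneSpectrum (𝓞 K) | (W v).Δ ∈ v.asIdeal}.Finite := by
    refine (Ideal.finite_factors hspan).subset fun v hv => ?_
    have h1 := (hW v).2 (W v₀) (hW v₀).1 1
    rw [pow_one] at h1
    show v.asIdeal ∣ Ideal.span {(W v₀).Δ}
    rw [Ideal.dvd_span_singleton]
    exact h1 hv
  have hfin2 : ((fun v : HeightOneSpectrum (𝓞 K) => (Pool.Agent.H921R2.TatePole.below v : ℕ)) ''
      {v : HeightOneSpectrum (𝓞 K) | (W v).Δ ∈ v.asIdeal}).Finite := hfin.image _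
  refine (Nat.infinite_setOfPred_prime.sdiff hfin2).mono fun p hp => ?_
  obtain ⟨hp1, hp2⟩ := hp
  obtain ⟨v, hv⟩ := Run7.h401.SD.exists_above (K := K) hp1
  refine ⟨hp1, v, hv, ?_⟩
  unfold Pool.Agent.H341R2.EC.dlt
  rw [if_neg]
  intro h
  exact hp2 ⟨v, h, hv⟩

/-- The closed rectangle `[a, b] × [c, e]`, with sides parallel to the axes. -/
def Rectangle (a b c e : ℝ) : Set ℂ := {z | a ≤ z.re ∧ z.re ≤ b ∧ c ≤ z.im ∧ z.im ≤ e}

/-- **The rate of convergence.**  The first part says what the numbers `logValue W s` are. -/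
theorem result (d : ℕ) : ∃ H₀ : ℝ → ℕ → ℝ, ∀ (K : Type) [Field K] [NumberField K], Module.finrank ℚ K ≤ d →
    ∀ (E : WeierstrassCurve K) [E.IsElliptic] (W : HeightOneSpectrum (𝓞 K) → WeierstrassCurve (𝓞 K)), MinimalModels E W →
    ((∀ s : ℂ, 3 / 2 < s.re → Tendsto (partialLog W s) atTop (𝓝 (logValue W s)) ∧
        Complex.exp (logValue W s) = LSeries W s) ∧
      ∀ᵐ t : ℝ, Tendsto (partialLog W (edgePoint t)) atTop (𝓝 (logValue W (edgePoint t)))) ∧
    ∀ σ : ℝ, 0 ≤ σ → ∃ f : ℂ → ℝ, ContDiff ℝ ∞ f ∧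
      (∀ k n : ℕ, ∃ C : ℝ, ∀ z, ‖z‖ ^ k * ‖iteratedFDeriv ℝ n f z‖ ≤ C) ∧
      (∀ z, 0 ≤ f z) ∧ Integrable f ∧ ∫ z, f z = 1 ∧
      (∀ δ : ℝ, 0 < δ → δ < 1 → ∀ A : ℕ, ∀ H : ℝ, H₀ δ A ≤ H → ∀ T : ℝ, ∀ B : Set ℂ, MeasurableSet B →
        (∫ z in (Metric.thickening (Real.log H ^ (-1 + δ)) Bᶜ)ᶜ, f z) - 1 / Real.log H ^ A ≤
            (volume {t ∈ Set.Icc T (T + H) | logValue W (σ + edgePoint t) ∈ B}).toReal / H ∧
        (volume {t ∈ Set.Icc T (T + H) | logValue W (σ + edgePoint t) ∈ B}).toReal / H ≤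
          (∫ z in Metric.thickening (Real.log H ^ (-1 + δ)) B, f z) + 1 / Real.log H ^ A) ∧
      ∃ C : ℝ, ∀ δ : ℝ, 0 < δ → δ < 1 → ∀ H : ℝ, H₀ δ 1 ≤ H → ∀ T a b c e : ℝ,
        |(volume {t ∈ Set.Icc T (T + H) | logValue W (σ + edgePoint t) ∈ Rectangle a b c e}).toReal / H
            - ∫ z in Rectangle a b c e, f z| ≤ C * Real.log H ^ (-1 + δ) := by
  obtain ⟨H₀, hH₀⟩ := Run7.h401.RT.rate d
  refine ⟨H₀, ?_⟩
  intro K _ _ hd E _ W hW
  have htr : ∀ (K : Type) [Field K] [NumberField K] (W : HeightOneSpectrum (𝓞 K) → WeierstrassCurve (𝓞 K))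
      (v : HeightOneSpectrum (𝓞 K)), trace W v = (Pool.Agent.H341R2.EC.trc W v : ℂ) := by
    intro K _ _ W v
    have h1 : (Nat.card {xy : (𝓞 K ⧸ v.asIdeal) × (𝓞 K ⧸ v.asIdeal) //
            ((W v).map (Ideal.Quotient.mk v.asIdeal)).toAffine.Equation xy.1 xy.2}) =
        Pool.Agent.H341R2.EC.aff (Pool.Agent.H341R2.EC.red v (W v)) := by
      unfold Pool.Agent.H341R2.EC.aff Pool.Agent.H341R2.EC.red
      refine Nat.card_congr (Equiv.subtypeEquivRight fun q => ?_)
      exact WeierstrassCurve.Affine.equation_iff ..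
    unfold trace Pool.Agent.H341R2.EC.trc
    rw [h1]
    push_cast
    rfl
  have hlf : ∀ (K : Type) [Field K] [NumberField K] (W : HeightOneSpectrum (𝓞 K) → WeierstrassCurve (𝓞 K))
      (v : HeightOneSpectrum (𝓞 K)) (s : ℂ), localFactor W v s = (Pool.Agent.R433.MD.lf W s v)⁻¹ := by
    intro K _ _ W v s
    have hne : ((Pool.Agent.H921R2.TatePole.nm v : ℕ) : ℂ) ≠ 0 := by
      exact_mod_cast (Pool.Agent.R433.MD.nm_pos v).ne'
    unfold localFactor Pool.Agent.R433.MD.lf
    rw [htr]
    congr 1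
    congr 1
    unfold Pool.Agent.H341R2.EC.dlt
    rw [show (1 - 2 * s : ℂ) = 1 + (-2 * s) by ring, Complex.cpow_add _ _ hne, Complex.cpow_one]
    split_ifs
    · ring
    · rw [one_mul]
      rfl
  have hlog : ∀ (K : Type) [Field K] [NumberField K] (W : HeightOneSpectrum (𝓞 K) → WeierstrassCurve (𝓞 K))
      (v : HeightOneSpectrum (𝓞 K)) (u : ℂ), 0 ≤ u.re →
      Complex.log (localFactor W v (3 / 2 + u)) = Pool.Agent.N534.EC.ll W u v := by
    intro K _ _ W v u hu
    rw [hlf]
    unfold Pool.Agent.N534.EC.ll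
    rw [Complex.log_inv]
    have h2 := Run7.h113.LE.lf_ball W v u hu
    have h3 := Complex.abs_re_le_norm (Pool.Agent.R433.MD.lf W (3 / 2 + u) v - 1)
    rw [Complex.sub_re, Complex.one_re, abs_le] at h3
    intro harg
    rw [Complex.arg_eq_pi_iff] at harg
    linarith [h3.1, harg.1]
  have hsum : ∀ (K : Type) [Field K] [NumberField K] (W : HeightOneSpectrum (𝓞 K) → WeierstrassCurve (𝓞 K)) (u : ℂ),
      0 ≤ u.re → ∀ x : ℕ, partialLog W (3 / 2 + u) x = Run7.h113.LE.Sx W x u := by
    intro K _ _ W u hu x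
    unfold partialLog Run7.h113.LE.Sx
    have hf : {v : HeightOneSpectrum (𝓞 K) | Ideal.absNorm v.asIdeal < x}.Finite :=
      Pool.Agent.W350.EdgeNF.hfin x
    rw [finsum_mem_eq_finite_toFinset_sum _ hf]
    exact Finset.sum_congr rfl fun v _ => hlog K W v u hu
  have hedge : ∀ (σ t : ℝ), (σ : ℂ) + edgePoint t = 3 / 2 + ((σ:ℂ) + t * Complex.I) := by
    intro σ t
    unfold edgePoint
    push_cast
    ring
  have hedge0 : ∀ t : ℝ, edgePoint t = 3 / 2 + (((0:ℝ):ℂ) + t * Complex.I) := by
    intro t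
    rw [← hedge, Complex.ofReal_zero, zero_add]
  -- the limits
  have hlim : ∀ (K : Type) [Field K] [NumberField K] (W : HeightOneSpectrum (𝓞 K) → WeierstrassCurve (𝓞 K)) (u l : ℂ),
      0 ≤ u.re → Tendsto (fun x => Run7.h113.LE.Sx W x u) atTop (𝓝 l) →
        Tendsto (partialLog W (3 / 2 + u)) atTop (𝓝 l) ∧ logValue W (3 / 2 + u) = l := by
    intro K _ _ W u l hu h
    have h1 : Tendsto (partialLog W (3 / 2 + u)) atTop (𝓝 l) := h.congr fun x => (hsum K W u hu x).symm
    exact ⟨h1, h1.limUnder_eq⟩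
  have hLL : ∀ (K : Type) [Field K] [NumberField K] (W : HeightOneSpectrum (𝓞 K) → WeierstrassCurve (𝓞 K)) (u : ℂ),
      0 < u.re → Tendsto (partialLog W (3 / 2 + u)) atTop (𝓝 (Run7.h113.LE.LL W u)) ∧
        logValue W (3 / 2 + u) = Run7.h113.LE.LL W u := by
    intro K _ _ W u hu
    refine hlim K W u _ hu.le ?_
    have h1 := Run7.h113.LE.LL_lim W hu u.im
    rw [Complex.re_add_im] at h1
    exact h1
  have hisl : ∀ (K : Type) [Field K] [NumberField K] (W : HeightOneSpectrum (𝓞 K) → WeierstrassCurve (𝓞 K)) (σ : ℝ),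
      0 ≤ σ → Run7.h113.LE.IsLim W σ (fun t => logValue W (σ + edgePoint t)) := by
    intro K _ _ W σ hσ
    unfold Run7.h113.LE.IsLim
    rcases hσ.eq_or_lt with h | h
    · subst h
      filter_upwards [Run7.h113.LE.Ex_ae W] with t ht
      have h1 := Run7.h113.LE.Lam_tendsto W ht
      rw [hedge, (hlim K W _ _ (by simp) h1).2]
      exact h1
    · refine Eventually.of_forall fun t => ?_
      have h1 := Run7.h113.LE.LL_lim W h t
      beta_reduce
      rw [hedge, (hlim K W _ _ (by simp [h.le]) h1).2]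
      exact h1
  -- the primes with good reduction
  have hgood : (Run7.h401.SD.Good1 W).Infinite := good_inf E W hW
  refine ⟨⟨?_, ?_⟩, fun σ hσ => ?_⟩
  · intro s hs
    obtain ⟨u, rfl⟩ : ∃ u : ℂ, s = 3 / 2 + u := ⟨s - 3 / 2, by ring⟩
    have hu : 0 < u.re := by
      have e : ((3:ℂ) / 2 + u).re = 3 / 2 + u.re := by simp
      rw [e] at hs
      linarith
    obtain ⟨h1, h2⟩ := hLL K W u hu
    rw [h2]
    refine ⟨h1, ?_⟩
    unfold Run7.h113.LE.LL LSeries
    have h3 : ∀ v, Pool.Agent.N534.EC.ll W u v = Complex.log (localFactor W v (3 / 2 + u)) := fun v =>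
      (hlog K W v u hu.le).symm
    simp_rw [h3]
    refine Complex.cexp_tsum_eq_tprod (fun v => ?_) ?_
    · rw [hlf]
      exact inv_ne_zero (Pool.Agent.R433.MD.lf_ne_zero W hs v)
    · exact (Run7.h113.LE.ll_summable W hu).congr h3
  · filter_upwards [Run7.h113.LE.Ex_ae W] with t ht
    obtain ⟨h1, h2⟩ := hlim K W _ _ (by simp) (Run7.h113.LE.Lam_tendsto W ht)
    rw [← hedge0] at h1 h2
    rw [h2]
    exact h1
  · exact hH₀ K hd W hgood σ hσ _ (hisl K W σ hσ)

end Pool.Agent.Results.MP_0d9be2_nt.RateOfConvergence
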